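import Mathlib
import Pool.Agent.Y811.IR.Main
import Pool.Agent.Y811.IR.Dens

set_option autoImplicit false

/-!
# MP_b511e9_an: the renormalizable parameters near the roots of the hyperbolic components

Project IR. An attracting cycle of period `N` excludes renormalizations of period larger than `N` (parts by
helpers 297, 304, 555, 606, 770, 921); the parameters near a parabolic parameter such that no cycle of
period dividing `m * q` is attracting are in a thin set (fixed point formula; helpers 109, 151, 811, on top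
of projects PC and PA).
-/

open MeasureTheory Metric Set

namespace Pool.Agent.Results.MP_b511e9_an.ParabolicRoots

/-- The `n`-th iterate of `z ^ 2 + c`. -/
def iter (c : ℂ) (n : ℕ) : ℂ → ℂ := (fun z : ℂ => z ^ 2 + c)^[n]

/-- `z ^ 2 + c` is renormalizable of period `p`: some bounded open neighbourhood `U` of the critical point
contains the points `f^{np}(0)`, its closure is contained in `V = f^p(U)`, the map `f^p : U → V` is proper
(it maps no boundary point of `U` into `V`), and `0` is its only critical point and is a simple one (so that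
its degree is two). -/
def Ren (c : ℂ) (p : ℕ) : Prop :=
  2 ≤ p ∧ ∃ U : Set ℂ, IsOpen U ∧ Bornology.IsBounded U ∧ (0 : ℂ) ∈ U ∧
    (∀ n : ℕ, 1 ≤ n → iter c (n * p) 0 ∈ U) ∧
    closure U ⊆ iter c p '' U ∧
    Disjoint (iter c p '' frontier U) (iter c p '' U) ∧
    (∀ z ∈ U, deriv (iter c p) z = 0 → z = 0) ∧ deriv (deriv (iter c p)) 0 ≠ 0

/-- `z ^ 2 + c` is infinitely renormalizable. -/
def InfRen (c : ℂ) : Prop := {p : ℕ | Ren c p}.Infinite

/-- `z₀` is a point of exact period `m` of `z ^ 2 + c₀` and its multiplier is a primitive `q`-th root of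
unity: `c₀` is a parabolic parameter, that is, the root of a hyperbolic component of period `m * q`. -/
def IsParabolicPoint (m q : ℕ) (c₀ z₀ : ℂ) : Prop :=
  1 ≤ m ∧ 1 ≤ q ∧ iter c₀ m z₀ = z₀ ∧ (∀ j, 0 < j → j < m → iter c₀ j z₀ ≠ z₀) ∧
    IsPrimitiveRoot (deriv (iter c₀ m) z₀) q

/-- Let `c₀` be a parabolic parameter, `e = 3 / 2` if the multiplier is `1` and `e = 2` otherwise. In the
disc of radius `r` about `c₀`, all the parameters which are renormalizable of some period larger than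
`m * q` together have area at most `C r ^ (1 + e)`, and they contain no disc of radius larger than
`C r ^ e`. In particular this holds for the infinitely renormalizable parameters. -/
theorem result (m q : ℕ) (c₀ z₀ : ℂ) (h : IsParabolicPoint m q c₀ z₀) (e : ℝ)
    (he : e = if deriv (iter c₀ m) z₀ = 1 then 3 / 2 else 2) :
    (∃ C r₀ : ℝ, 0 < C ∧ 0 < r₀ ∧ ∀ r : ℝ, 0 < r → r < r₀ →
      volume (ball c₀ r ∩ {c | ∃ p, m * q < p ∧ Ren c p}) ≤ ENNReal.ofReal (C * r ^ (1 + e)) ∧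
      ∀ (c₁ : ℂ) (s : ℝ), ball c₁ s ⊆ ball c₀ r ∩ {c | ∃ p, m * q < p ∧ Ren c p} → s ≤ C * r ^ e) ∧
    ∃ C r₀ : ℝ, 0 < C ∧ 0 < r₀ ∧ ∀ r : ℝ, 0 < r → r < r₀ →
      volume (ball c₀ r ∩ {c | InfRen c}) ≤ ENNReal.ofReal (C * r ^ (1 + e)) := by
  have key : ∃ C r₀ : ℝ, 0 < C ∧ 0 < r₀ ∧ ∀ r : ℝ, 0 < r → r < r₀ →
      volume (ball c₀ r ∩ {c | ∃ p, m * q < p ∧ Ren c p}) ≤ ENNReal.ofReal (C * r ^ (1 + e)) ∧
      ∀ (c₁ : ℂ) (s : ℝ), ball c₁ s ⊆ ball c₀ r ∩ {c | ∃ p, m * q < p ∧ Ren c p} →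
        s ≤ C * r ^ e := by
    obtain ⟨h1, h2, h3, h4, h5⟩ := h
    obtain ⟨C, r₀, hC, hr₀, hb⟩ := Pool.Agent.Y811.IR.dens_n (d := 2) (m := m) (q := q) (c₀ := c₀)
      (z₀ := z₀) ⟨le_rfl, h1, h2, h3, h4, h5⟩ he
    have hsub : {c : ℂ | ∃ p, m * q < p ∧ Ren c p} ⊆
        {c | ¬ Pool.Agent.Y811.IR.HypN 2 (m * q) c} := by
      rintro c ⟨p, hp, -, U, u1, -, u2, u3, u4, u5, u6, u7⟩ ⟨z, hz, hlt⟩
      exact Pool.Agent.Y811.IR.no_ren (c := c) (N := m * q) (a := z) ⟨Nat.mul_pos h1 h2, hz, hlt⟩ hp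
        u1 u2 u3 u4 u5 u6 u7
    refine ⟨C, r₀, hC, hr₀, fun r hr hrr => ?_⟩
    obtain ⟨a1, a2⟩ := hb r hr hrr
    exact ⟨(measure_mono (inter_subset_inter_right _ hsub)).trans a1,
      fun c₁ s hs => a2 c₁ s (hs.trans (inter_subset_inter_right _ hsub))⟩
  refine ⟨key, ?_⟩
  obtain ⟨C, r₀, hC, hr₀, hb⟩ := key
  refine ⟨C, r₀, hC, hr₀, fun r hr hrr => (measure_mono (inter_subset_inter_right _ ?_)).trans
    (hb r hr hrr).1⟩
  intro c hc
  obtain ⟨p, hp, hlt⟩ := hc.exists_gt (m * q)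
  exact ⟨p, hlt, hp⟩

end Pool.Agent.Results.MP_b511e9_an.ParabolicRoots
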